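import Pool.Agent.H.MP_e67b39_co.G

namespace Pool.Agent.Results.MP_e67b39_co.Full

open Finset Pool.Agent.H.MP_e67b39_co

/-- No `3k` distinct elements of `A` have sum zero. -/
def WeakFree (k : ℕ) (A : Finset (ZMod 3 × ZMod (3 * k))) : Prop :=
  ∀ S ⊆ A, S.card = 3 * k → ∑ x ∈ S, x ≠ 0

/-- The sizes of weakly zero-`3k`-sum-free subsets of `ℤ_3 × ℤ_{3k}`. -/
def Sizes (k : ℕ) : Set ℕ := {n | ∃ A, WeakFree k A ∧ A.card = n}

/-- All prime factors of `k` are `1 mod 3`, or `k` is `2·3^b`, `4·3^b`, twice a prime, or `8`. -/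
def Low (k : ℕ) : Prop :=
  (∀ p, p.Prime → p ∣ k → p % 3 = 1) ∨ (∃ b, k = 2 * 3 ^ b ∨ k = 4 * 3 ^ b) ∨
    (∃ p, p.Prime ∧ k = 2 * p) ∨ k = 8

lemma compl {k j : ℕ} {A : Finset (ZMod 3 × ZMod (3 * k))} (cA : A.card = 3 * k + j) :
    WeakFree k A ↔ ∀ T ⊆ A, T.card = j → ∑ x ∈ T, x ≠ ∑ x ∈ A, x := by
  constructor
  · intro h T hT c e
    refine h (A \ T) sdiff_subset (by have := card_sdiff_add_card_eq_card hT; omega) ?_
    have := sum_sdiff (f := fun x => x) hT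
    rwa [e, add_eq_right] at this
  · intro h T hT c e
    refine h (A \ T) sdiff_subset (by have := card_sdiff_add_card_eq_card hT; omega) ?_
    have := sum_sdiff (f := fun x => x) hT
    rwa [e, add_zero] at this

lemma iff3 {k : ℕ} [NeZero k] {A : Finset (ZMod 3 × ZMod (3 * k))} (cA : A.card = 3 * k + 3) :
    WeakFree k A ↔ R A (∑ x ∈ A, x) := by
  rw [compl cA]
  constructor
  · intro h a ha b hb c hc h1 h2 h3 e
    refine h {a, b, c} (by simp [insert_subset_iff, *]) (card_eq_three.2 ⟨a, b, c, h1, h2, h3, rfl⟩) ?_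
    rw [sum_insert (by simp [h1, h2]), sum_pair h3, ← add_assoc, e]
  · intro h T hT cT e
    obtain ⟨a, b, c, h1, h2, h3, rfl⟩ := card_eq_three.1 cT
    rw [sum_insert (by simp [h1, h2]), sum_pair h3, ← add_assoc] at e
    exact h a (hT (by simp)) b (hT (by simp)) c (hT (by simp)) h1 h2 h3 e

lemma sub {k n : ℕ} {A : Finset (ZMod 3 × ZMod (3 * k))} (h : WeakFree k A) (hn : n ≤ A.card) :
    ∃ B, WeakFree k B ∧ B.card = n := by
  obtain ⟨B, hB, c⟩ := exists_subset_card_eq hn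
  exact ⟨B, fun S hS => h S (hS.trans hB), c⟩

lemma one : ∀ A : Finset (ZMod 3 × ZMod 3), A.card = 5 →
    ∃ a ∈ A, ∃ b ∈ A, ∃ c ∈ A, a ≠ b ∧ a ≠ c ∧ b ≠ c ∧ a + b + c = 0 := by
  decide +kernel

theorem result : IsGreatest (Sizes 1) 4 ∧ ∀ k, 2 ≤ k →
    (Low k → IsGreatest (Sizes k) (3 * k + 2)) ∧ (¬ Low k → IsGreatest (Sizes k) (3 * k + 3)) := by
  refine ⟨⟨⟨{(0, 0), (0, 1), (1, 0), (1, 1)}, ?_, by decide⟩, ?_⟩, fun k hk => ?_⟩
  · intro S hS
    rw [← mem_powerset] at hS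
    revert S
    decide +kernel
  · rintro n ⟨A, hA, rfl⟩
    by_contra hc
    obtain ⟨B, hB, c⟩ := sub hA (show 5 ≤ A.card by omega)
    obtain ⟨a, ha, b, hb, c, hc, h1, h2, h3, e⟩ := one B c
    refine hB {a, b, c} (by simp [insert_subset_iff, *])
      (card_eq_three.2 ⟨a, b, c, h1, h2, h3, rfl⟩) ?_
    rw [sum_insert (by simp [h1, h2]), sum_pair h3, ← add_assoc, e]
  haveI : NeZero k := ⟨by omega⟩
  refine ⟨fun hL => ⟨?_, ?_⟩, fun hL => ⟨?_, ?_⟩⟩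
  · obtain ⟨A, c, h⟩ := two hk
    refine ⟨A, (compl c).2 fun T hT cT e => ?_, c⟩
    obtain ⟨a, b, h1, rfl⟩ := card_eq_two.1 cT
    rw [sum_pair h1] at e
    exact h a (hT (by simp)) b (hT (by simp)) h1 e
  · rintro n ⟨A, hA, rfl⟩
    by_contra hc
    obtain ⟨B, hB, c⟩ := sub hA (show 3 * k + 3 ≤ A.card by omega)
    exact three hL c ((iff3 c).1 hB)
  · obtain ⟨A, c, h⟩ := yes hk hL
    exact ⟨A, (iff3 c).2 h, c⟩
  · rintro n ⟨A, hA, rfl⟩
    by_contra hc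
    obtain ⟨B, hB, cB⟩ := sub hA (show 3 * k + 4 ≤ A.card by omega)
    refine four cB fun a ha b hb c hc d hd h1 h2 h3 e => ?_
    obtain ⟨b1, b2⟩ := mem_erase.1 hb
    obtain ⟨c1, c2⟩ := mem_erase.1 hc
    obtain ⟨d1, d2⟩ := mem_erase.1 hd
    have n : a ∉ ({b, c, d} : Finset _) := by simp [b1.symm, c1.symm, d1.symm]
    refine (compl cB).1 hB {a, b, c, d} (by simp [insert_subset_iff, *]) ?_ ?_
    · rw [card_insert_of_notMem n, card_eq_three.2 ⟨b, c, d, h1, h2, h3, rfl⟩]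
    · rw [sum_insert n, sum_insert (by simp [h1, h2]), sum_pair h3, ← add_assoc b, e,
        add_sub_cancel]

end Pool.Agent.Results.MP_e67b39_co.Full
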